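import Mathlib
import Pool.Agent.R3.Stmts
import Pool.Agent.Helper21_R3.Kit

/-!
# REA: the induction step (paper: PAPER_R3B.md)
-/

set_option autoImplicit false

namespace Pool.Agent.R3.H76

open Pool.Agent.R3.Kit (ph_zero np_cov np_of_pf0 ret_neg)

variable {V : Type} [Fintype V] [DecidableEq V] {σ : Fin 3 → Equiv.Perm V}

/-- a column whose row has a nonzero label is covered by a row with a nonzero label -/
theorem cov_ne (s0 : σ 0 = 1) {P : V → Fin 3} (hP : PF σ P) {c : V} (hc : P c ≠ 0) :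
    ∃ u, ph σ P u = c ∧ P u ≠ 0 := by
  obtain ⟨u, hu⟩ := (Finite.injective_iff_surjective.1 hP) c
  refine ⟨u, hu, fun h0 => ?_⟩
  rw [ph_zero s0 h0] at hu
  rw [hu] at h0
  exact hc h0

/-- in a state over `P` a row with a nonzero label in `P` keeps its column -/
theorem over_ph {P l : V → Fin 3} {z y u : V} (h : Over σ P l z y) (hu : P u ≠ 0) :
    ph σ l u = ph σ P u ∧ u ≠ z ∧ l u ≠ 0 := by
  have h1 := h.2.2 u hu
  refine ⟨?_, ?_, ?_⟩
  · unfold ph
    rw [h1]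
  · rintro rfl
    rw [h.1.1] at h1
    exact hu h1.symm
  · rw [h1]
    exact hu

theorem over_self (s0 : σ 0 = 1) {P : V → Fin 3} (hP : PF σ P) {v : V} (hv : P v = 0) :
    Over σ P P v v :=
  ⟨np_of_pf0 s0 hP hv, ret_neg σ v, fun _ _ => rfl⟩

theorem rea (alf : AlfStmt) (msa : MsaStmt) (msb : MsbStmt) (ovx : OvxStmt) (ovc : OvcStmt) :
    ReaStmt := by
  intro V _ _ σ b c d hC hconn M hX P hP hnu f g' hf hg'
  have s0 := hC.s0
  rcases Nat.lt_or_ge M (nu P) with hlt | hle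
  swap
  · exact hX P hP hle f g' hf hg'
  have hnu1 : nu P = M + 1 := le_antisymm hnu hlt
  by_contra hne
  obtain ⟨R, hR⟩ : ∃ R : Finset V, R = Finset.univ.filter
      (fun v => P v ≠ 0 ∧ Bg σ b c v P = Bg σ b c f P) := ⟨_, rfl⟩
  have memR : ∀ v, v ∈ R ↔ (P v ≠ 0 ∧ Bg σ b c v P = Bg σ b c f P) := by
    intro v
    rw [hR, Finset.mem_filter]
    exact ⟨fun h => h.2, fun h => ⟨Finset.mem_univ _, h⟩⟩
  have R0 : ∀ v ∈ R, P v ≠ 0 := fun v hv => ((memR v).1 hv).1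
  have Rcl : ∀ v ∈ R, ph σ P v ∈ R := by
    intro v hv
    obtain ⟨h1, h2⟩ := (memR v).1 hv
    obtain ⟨h3, h4⟩ := alf V σ b c d hC P v hP h1
    exact (memR _).2 ⟨h3, h4.symm.trans h2⟩
  have hgR : g' ∉ R := fun h => hne ((memR g').1 h).2.symm
  obtain ⟨Z, hZ⟩ : ∃ Z : Set V, ∀ z, z ∈ Z ↔ (z ∈ R ∨ ∃ l y r j, Over σ P l z y ∧ r ∈ R ∧
      σ j r = y) := ⟨{z | z ∈ R ∨ ∃ l y r j, Over σ P l z y ∧ r ∈ R ∧ σ j r = y}, fun z => Iff.rfl⟩
  have hZne : Z.Nonempty := ⟨f, (hZ f).2 (Or.inl ((memR f).2 ⟨hf, rfl⟩))⟩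
  have hcl : ∀ z ∈ Z, ∀ m, σ m z ∈ Z := by
    intro z hz m
    by_cases hzR : z ∈ R
    · obtain ⟨g₁, hg₁⟩ := (Finite.injective_iff_surjective.1 hP) (σ m z)
      by_cases hgR1 : g₁ ∈ R
      · rw [← hg₁]
        exact (hZ _).2 (Or.inl (Rcl g₁ hgR1))
      · by_cases hP1 : P g₁ = 0
        · have h1 : σ m z = g₁ := by rw [← hg₁, ph_zero s0 hP1]
          rw [h1]
          exact (hZ _).2 (Or.inr ⟨P, g₁, z, m, over_self s0 hP hP1, hzR, h1⟩)
        · exfalso
          have h1 := msa V σ b c d hC M hX P R z g₁ m hP hnu1 R0 Rcl hzR hP1 hgR1 hg₁.symm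
          exact hgR1 ((memR g₁).2 ⟨hP1, h1.symm.trans ((memR z).1 hzR).2⟩)
    · obtain ⟨l, y, r, j, hO, hr, hy⟩ := ((hZ z).1 hz).resolve_left hzR
      have hPy : P y = 0 := by
        by_contra h0
        obtain ⟨u, hu, hu0⟩ := cov_ne s0 hP h0
        obtain ⟨h1, h2, h3⟩ := over_ph hO hu0
        exact hO.1.2.1 u h2 (h1.trans hu)
      by_cases hm : m = 0
      · rw [hm, s0]
        exact hz
      by_cases hzy : σ m z = y
      · rw [hzy]
        exact (hZ _).2 (Or.inr ⟨P, y, r, j, over_self s0 hP hPy, hr, hy⟩)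
      obtain ⟨g₁, hg₁z, hg₁⟩ := np_cov hO.1 hzy
      by_cases hP1 : P g₁ = 0
      · have hPz : P (σ m z) = 0 := by
          by_contra h0
          obtain ⟨u, hu, hu0⟩ := cov_ne s0 hP h0
          obtain ⟨h1, h2, h3⟩ := over_ph hO hu0
          have h4 := hO.1.2.2 u g₁ h2 hg₁z ((h1.trans hu).trans hg₁.symm)
          rw [h4] at hu0
          exact hu0 hP1
        by_cases hl1 : l g₁ = 0
        · have h1 : σ m z = g₁ := by rw [← hg₁, ph_zero s0 hl1]
          have h2 := ovx V σ b c d hC P l z y m hP hO hm (by rw [h1]; exact hl1) hzy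
            (by rw [h1]; exact hg₁z) hPz
          exact (hZ _).2 (Or.inr ⟨_, y, r, j, h2, hr, hy⟩)
        · have h1 : l (σ m z) ≠ 0 ∨ σ m z = z := by
            by_contra h0
            push Not at h0
            obtain ⟨h2, h3⟩ := h0
            have h4 : ph σ l (σ m z) = σ m z := ph_zero s0 h2
            have h5 := hO.1.2.2 (σ m z) g₁ h3 hg₁z (h4.trans hg₁.symm)
            rw [h5] at h2
            exact hl1 h2
          obtain ⟨l', hl'⟩ := ovc V σ b c d hC P l z y (σ m z) hP hO hPz h1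
          exact (hZ _).2 (Or.inr ⟨l', y, r, j, hl', hr, hy⟩)
      · obtain ⟨h1, h2, h3⟩ := over_ph hO hP1
        have h4 : ph σ P g₁ = σ m z := h1.symm.trans hg₁
        by_cases hgR1 : g₁ ∈ R
        · rw [← h4]
          exact (hZ _).2 (Or.inl (Rcl g₁ hgR1))
        · exfalso
          have h5 := msb V σ b c d hC M hX P l R r g₁ z y j m hP hnu1 R0 Rcl hr hP1 hgR1 hO hy
            h4.symm
          exact hgR1 ((memR g₁).2 ⟨hP1, h5.symm.trans ((memR r).1 hr).2⟩)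
  have huniv := hconn Z hZne hcl
  have hg'Z : g' ∈ Z := by
    rw [huniv]
    exact Set.mem_univ _
  obtain ⟨l, y, r, j, hO, hr, hy⟩ := ((hZ g').1 hg'Z).resolve_left hgR
  exact (over_ph hO hg').2.1 rfl

end Pool.Agent.R3.H76
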